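import Mathlib
import Pool.Agent.Q205.HC.Path
import Pool.Agent.Q205.HC.Reduce

/-!
# An edge state curve of the honeycomb that does not end at a band crossing

The assertion that, for every rational edge of the honeycomb, every edge state curve emerges from
and terminates in a band crossing is false.  For the edge `(3, 1)` with the half-plane whose
outermost row consists of B-sites there is an edge state curve whose domain is an arc `(p, q)` with
`-π/2 < p < 0 < q < π/2`, and neither `p` nor `q` is the quasi-momentum of a band crossing.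

The definitions are in `Pool.Agent.Q205.HC.Defs`.
-/

namespace Pool.Agent.Results.MP_1b99aa_mp.BandMerging

open Set Filter Topology Pool.Agent.Q205.HC

theorem spec_iff (t E : ℝ) : e31.EdgeState (t : Real.Angle) E ↔ SpecR t E := by
  rw [edgeState_iff, Real.Angle.toCircle_coe, Circle.coe_exp]
  rfl

noncomputable def e₀ : ℝ := mu (Complex.exp ((0 : ℝ) * Complex.I))

/-- admissible germs of curves on real intervals -/
def Adm (J : Set ℝ) (E : ℝ → ℝ) : Prop :=
  IsOpen J ∧ J.OrdConnected ∧ (0 : ℝ) ∈ J ∧ ContinuousOn E J ∧ (∀ t ∈ J, SpecR t (E t)) ∧ E 0 = e₀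

def gr (J : Set ℝ) (E : ℝ → ℝ) : Set (ℝ × ℝ) := {p | p.1 ∈ J ∧ p.2 = E p.1}

theorem adm_lt {J : Set ℝ} {E : ℝ → ℝ} (h : Adm J E) : ∀ t ∈ J, |t| < k₁ :=
  confine J h.2.1 h.2.2.1 E h.2.2.2.1 h.2.2.2.2.1 (by rw [h.2.2.2.2.2]; exact mu_zero_lt)

theorem exists_adm : ∃ J E, Adm J E := by
  obtain ⟨δ, hδ, h⟩ := near_zero
  refine ⟨Ioo (-δ) δ, fun t => mu (Complex.exp (t * Complex.I)), isOpen_Ioo, ordConnected_Ioo,
    ⟨by linarith, hδ⟩, ?_, ?_, rfl⟩
  · exact (mu_continuous.comp (by fun_prop)).continuousOn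
  · intro t ht
    exact h t (abs_lt.mpr ht)

/-- a maximal admissible germ -/
theorem exists_max : ∃ J E, Adm J E ∧ ∀ J' E', Adm J' E' → J ⊆ J' → (∀ t ∈ J, E' t = E t) → J' = J := by
  obtain ⟨J₀, E₀, h₀⟩ := exists_adm
  set 𝒢 : Set (Set (ℝ × ℝ)) := {G | ∃ J E, Adm J E ∧ G = gr J E} with h𝒢
  have hz := zorn_subset_nonempty 𝒢 ?_ (gr J₀ E₀) ⟨J₀, E₀, h₀, rfl⟩
  · obtain ⟨m, -, hm⟩ := hz
    obtain ⟨J, E, hJE, rfl⟩ := hm.prop
    refine ⟨J, E, hJE, fun J' E' h' hsub heq => ?_⟩
    have h1 : gr J E ⊆ gr J' E' := by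
      rintro ⟨t, y⟩ ⟨ht, hy⟩
      exact ⟨hsub ht, by simp only at hy ht ⊢; rw [hy, heq t ht]⟩
    have h2 : gr J' E' ⊆ gr J E := hm.le_of_ge ⟨J', E', h', rfl⟩ h1
    apply Subset.antisymm _ hsub
    intro t ht
    exact (h2 (show (t, E' t) ∈ gr J' E' from ⟨ht, rfl⟩)).1
  · intro c hc hchain hne
    refine ⟨⋃₀ c, ?_, fun s hs => subset_sUnion_of_mem hs⟩
    -- functionality
    have hfun : ∀ t y y', (t, y) ∈ ⋃₀ c → (t, y') ∈ ⋃₀ c → y = y' := by
      rintro t y y' ⟨G, hG, h1⟩ ⟨G', hG', h2⟩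
      rcases hchain.total hG hG' with h | h
      · obtain ⟨J, E, -, rfl⟩ := hc hG'
        exact ((h h1).2 : y = E t).trans (h2.2 : y' = E t).symm
      · obtain ⟨J, E, -, rfl⟩ := hc hG
        exact (h1.2 : y = E t).trans ((h h2).2 : y' = E t).symm
    set J : Set ℝ := {t | ∃ y, (t, y) ∈ ⋃₀ c} with hJ
    classical
    set E : ℝ → ℝ := fun t => if h : ∃ y, (t, y) ∈ ⋃₀ c then h.choose else 0 with hE
    have hEs : ∀ t y, (t, y) ∈ ⋃₀ c → E t = y := by
      intro t y h
      have hex : ∃ y, (t, y) ∈ ⋃₀ c := ⟨y, h⟩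
      simp only [hE]
      rw [dif_pos hex]
      exact hfun t _ _ hex.choose_spec h
    have hloc : ∀ t ∈ J, ∃ J' E', Adm J' E' ∧ t ∈ J' ∧ J' ⊆ J ∧ ∀ r ∈ J', E r = E' r := by
      rintro t ⟨y, G, hG, h1⟩
      obtain ⟨J', E', hA, rfl⟩ := hc hG
      refine ⟨J', E', hA, h1.1, ?_, ?_⟩
      · intro r hr
        exact ⟨E' r, gr J' E', hG, hr, rfl⟩
      · intro r hr
        exact hEs r _ ⟨gr J' E', hG, hr, rfl⟩
    refine ⟨J, E, ⟨?_, ?_, ?_, ?_, ?_, ?_⟩, ?_⟩
    · rw [isOpen_iff_mem_nhds]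
      intro t ht
      obtain ⟨J', E', hA, htJ, hsub, -⟩ := hloc t ht
      exact mem_of_superset (hA.1.mem_nhds htJ) hsub
    · constructor
      rintro t₁ ⟨y₁, G₁, hG₁, h1⟩ t₂ ⟨y₂, G₂, hG₂, h2⟩
      rcases hchain.total hG₁ hG₂ with h | h
      · obtain ⟨J', E', hA, rfl⟩ := hc hG₂
        intro r hr
        exact ⟨E' r, gr J' E', hG₂, hA.2.1.out (h h1).1 h2.1 hr, rfl⟩
      · obtain ⟨J', E', hA, rfl⟩ := hc hG₁
        intro r hr
        exact ⟨E' r, gr J' E', hG₁, hA.2.1.out h1.1 (h h2).1 hr, rfl⟩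
    · obtain ⟨G, hG⟩ := hne
      obtain ⟨J', E', hA, rfl⟩ := hc hG
      exact ⟨E' 0, gr J' E', hG, hA.2.2.1, rfl⟩
    · intro t ht
      obtain ⟨J', E', hA, htJ, hsub, heq⟩ := hloc t ht
      have h1 : ContinuousAt E' t := hA.2.2.2.1.continuousAt (hA.1.mem_nhds htJ)
      have h2 : E' =ᶠ[𝓝 t] E :=
        Filter.eventuallyEq_of_mem (hA.1.mem_nhds htJ) fun r hr => (heq r hr).symm
      exact (h1.congr h2).continuousWithinAt
    · intro t ht
      obtain ⟨J', E', hA, htJ, hsub, heq⟩ := hloc t ht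
      rw [heq t htJ]
      exact hA.2.2.2.2.1 t htJ
    · obtain ⟨G, hG⟩ := hne
      obtain ⟨J', E', hA, rfl⟩ := hc hG
      rw [hEs 0 (E' 0) ⟨gr J' E', hG, hA.2.2.1, rfl⟩]
      exact hA.2.2.2.2.2
    · ext ⟨t, y⟩
      constructor
      · intro h
        exact ⟨⟨y, h⟩, (hEs t y h).symm⟩
      · rintro ⟨⟨y', hy'⟩, h2⟩
        simp only at h2 hy'
        rw [h2, hEs t y' hy']
        exact hy'

theorem toReal_of_abs_lt {t : ℝ} (h : |t| < k₁) : ((t : Real.Angle)).toReal = t := by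
  rw [Real.Angle.toReal_coe_eq_self_iff]
  have := abs_lt.mp h
  have h2 := k₁_lt
  constructor <;> linarith [this.1, this.2, Real.pi_pos]

/-- An arc curve of eigenvalues that contains the angle `0`, with value `e₀` there, comes from an
admissible germ. -/
theorem lift_curve {I : Set Real.Angle} {E : Real.Angle → ℝ} (h : e31.IsCurve I E)
    (h0 : (0 : Real.Angle) ∈ I) (hE0 : E 0 = e₀) :
    ∃ J, Adm J (fun t : ℝ => E t) ∧ I = (fun x : ℝ => (x : Real.Angle)) '' J := by
  obtain ⟨harc, hcont, hspec⟩ := h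
  rcases harc with rfl | ⟨p, q, hpq, hlen, rfl⟩
  · refine ⟨univ, ⟨isOpen_univ, ordConnected_univ, mem_univ _, ?_, ?_, ?_⟩, ?_⟩
    · exact hcont.comp Real.Angle.continuous_coe.continuousOn fun _ _ => mem_univ _
    · intro t _
      exact (spec_iff t _).mp (hspec _ (mem_univ _))
    · simp only [Real.Angle.coe_zero]; exact hE0
    · rw [image_univ]
      exact (range_eq_univ.mpr fun θ => ⟨θ.toReal, Real.Angle.coe_toReal θ⟩).symm
  · obtain ⟨y, hy, hy0⟩ := h0
    simp only at hy0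
    have hshift : ∀ x : ℝ, ((x + y : ℝ) : Real.Angle) = (x : Real.Angle) := by
      intro x; rw [Real.Angle.coe_add, hy0, add_zero]
    have himg : (fun x : ℝ => (x : Real.Angle)) '' Ioo p q
        = (fun x : ℝ => (x : Real.Angle)) '' Ioo (p - y) (q - y) := by
      ext θ
      constructor
      · rintro ⟨x, hx, rfl⟩
        refine ⟨x - y, ⟨by linarith [hx.1], by linarith [hx.2]⟩, ?_⟩
        simp only
        rw [← hshift (x - y), sub_add_cancel]
      · rintro ⟨x, hx, rfl⟩
        refine ⟨x + y, ⟨by linarith [hx.1], by linarith [hx.2]⟩, ?_⟩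
        exact hshift x
    refine ⟨Ioo (p - y) (q - y), ⟨isOpen_Ioo, ordConnected_Ioo,
      ⟨by linarith [hy.1], by linarith [hy.2]⟩, ?_, ?_, ?_⟩, himg⟩
    · refine hcont.comp Real.Angle.continuous_coe.continuousOn fun x hx => ?_
      rw [himg]
      exact ⟨x, hx, rfl⟩
    · intro t ht
      refine (spec_iff t _).mp (hspec _ ?_)
      rw [himg]
      exact ⟨t, ht, rfl⟩
    · simp only [Real.Angle.coe_zero]; exact hE0

theorem coe_cont (g : Real.Angle → ℝ) (t : ℝ) :
    ContinuousAt (fun x : ℝ => g x) t ↔ ContinuousAt g (t : Real.Angle) := by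
  have h : IsOpenQuotientMap (fun x : ℝ => (x : Real.Angle)) :=
    QuotientAddGroup.isOpenQuotientMap_mk
  exact h.continuousAt_comp_iff (g := g) (x := t)

theorem not_crossing {t : ℝ} (h : |t| ≤ k₁) : ¬ e31.IsCrossing (t : Real.Angle) := by
  rintro ⟨κ, hκ, hk⟩
  have hcos : 0 ≤ Real.cos t := by
    have h1 := abs_le.mp h
    exact Real.cos_nonneg_of_neg_pi_div_two_le_of_le (by linarith [h1.1, k₁_lt])
      (by linarith [h1.2, k₁_lt])
  set a := dot κ vv₁ with ha
  set b := dot κ vv₂ with hb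
  have hv : dot κ e31.v = 3 * a + b := by
    rw [ha, hb]
    unfold Edge.v dot
    have e1 : e31.a₁₁ = 3 := rfl
    have e2 : e31.a₁₂ = 1 := rfl
    rw [e1, e2]
    simp
    ring
  unfold IsDirac at hκ
  set u := Complex.exp (a * Complex.I) with hu
  set w := Complex.exp (b * Complex.I) with hw
  have hu1 : ‖u‖ = 1 := norm_exp_I a
  have hw1 : ‖w‖ = 1 := norm_exp_I b
  -- apply the computation of `re_of_zero` to `u⁻¹`
  have hexp : Complex.exp (t * Complex.I) = u ^ 3 * w := by
    have h1 : ((t : Real.Angle).toCircle : ℂ) = (((dot κ e31.v : ℝ) : Real.Angle).toCircle : ℂ) := by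
      rw [hk]
    rw [Real.Angle.toCircle_coe, Real.Angle.toCircle_coe, Circle.coe_exp, Circle.coe_exp, hv] at h1
    rw [h1, hu, hw, ← Complex.exp_nat_mul, ← Complex.exp_add]
    congr 1
    push_cast
    ring
  have hu0 : u ≠ 0 := by intro h0; rw [h0] at hu1; simp at hu1
  have hinv : ‖u⁻¹‖ = 1 := by rw [norm_inv, hu1, inv_one]
  have hβ : ‖u ^ 3 * w‖ = 1 := by rw [norm_mul, norm_pow, hu1, hw1]; norm_num
  have hcube : u ^ 3 = 1 := by
    have e2 : ‖u + 1‖ = 1 := by
      have : u + 1 = -w := by linear_combination hκ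
      rw [this, norm_neg, hw1]
    have f1 : u.re ^ 2 + u.im ^ 2 = 1 := by
      have := Complex.sq_norm u
      rw [hu1, Complex.normSq_apply] at this
      linarith
    have f2 : (u.re + 1) ^ 2 + u.im ^ 2 = 1 := by
      have := Complex.sq_norm (u + 1)
      rw [e2, Complex.normSq_apply] at this
      simp at this
      linarith
    have f3 : u.re = -1 / 2 := by linarith
    have f4 : u ^ 2 + u + 1 = 0 := by
      apply Complex.ext
      · simp [pow_two, Complex.mul_re]; nlinarith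
      · simp [pow_two, Complex.mul_im]; rw [f3]; ring
    linear_combination (u - 1) * f4
  have hre : (u ^ 3 * w).re = -1 / 2 := by
    rw [hcube, one_mul]
    have : w = -1 - u := by linear_combination hκ
    have f1 : u.re ^ 2 + u.im ^ 2 = 1 := by
      have := Complex.sq_norm u
      rw [hu1, Complex.normSq_apply] at this
      linarith
    have f2 : w.re ^ 2 + w.im ^ 2 = 1 := by
      have := Complex.sq_norm w
      rw [hw1, Complex.normSq_apply] at this
      linarith
    rw [this] at f2 ⊢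
    simp at f2 ⊢
    nlinarith
  have hcos2 : Real.cos t = -1 / 2 := by
    rw [← Complex.exp_ofReal_mul_I_re, hexp, hre]
  linarith

/-- For the edge `(3, 1)` with half-plane `x · ν ≥ -1/3`, `ν = (2/√3, -4)`, some edge state curve
has domain an arc `(p, q)`, `-π/2 < p < 0 < q < π/2`, neither end of which is the quasi-momentum of
a band crossing.  In particular the assertion of the problem is false. -/
theorem result :
    (∃ (I : Set Real.Angle) (E : Real.Angle → ℝ) (p q : ℝ), e31.IsEdgeStateCurve I E ∧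
      I = (fun x : ℝ => (x : Real.Angle)) '' Ioo p q ∧
      -(Real.pi / 2) < p ∧ p < 0 ∧ 0 < q ∧ q < Real.pi / 2 ∧
      ¬ e31.IsCrossing p ∧ ¬ e31.IsCrossing q) ∧
    ¬ BandCrossingClaim := by
  have main : ∃ (I : Set Real.Angle) (E : Real.Angle → ℝ) (p q : ℝ), e31.IsEdgeStateCurve I E ∧
      I = (fun x : ℝ => (x : Real.Angle)) '' Ioo p q ∧
      -(Real.pi / 2) < p ∧ p < 0 ∧ 0 < q ∧ q < Real.pi / 2 ∧
      ¬ e31.IsCrossing p ∧ ¬ e31.IsCrossing q := by
    obtain ⟨J, E, hA, hmax⟩ := exists_max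
    have hlt := adm_lt hA
    obtain ⟨hopen, hord, h0, hcont, hspec, hE0⟩ := hA
    have hbb : BddBelow J := ⟨-k₁, fun t ht => (abs_lt.mp (hlt t ht)).1.le⟩
    have hba : BddAbove J := ⟨k₁, fun t ht => (abs_lt.mp (hlt t ht)).2.le⟩
    have hJconn : IsConnected J := ⟨⟨0, h0⟩, hord.isPreconnected⟩
    set p := sInf J with hp
    set q := sSup J with hq
    have hJ : J = Ioo p q := by
      apply Subset.antisymm
      · intro t ht
        obtain ⟨ε, hε, hball⟩ := Metric.isOpen_iff.mp hopen t ht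
        constructor
        · have h1 : t - ε / 2 ∈ J := hball (by
            rw [Metric.mem_ball, Real.dist_eq]; rw [abs_lt]; constructor <;> linarith)
          have := csInf_le hbb h1
          linarith
        · have h1 : t + ε / 2 ∈ J := hball (by
            rw [Metric.mem_ball, Real.dist_eq]; rw [abs_lt]; constructor <;> linarith)
          have := le_csSup hba h1
          linarith
      · exact hJconn.Ioo_csInf_csSup_subset hbb hba
    have h0' : (0 : ℝ) ∈ Ioo p q := by rw [← hJ]; exact h0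
    have hpk : -k₁ ≤ p := le_csInf ⟨0, h0⟩ fun t ht => (abs_lt.mp (hlt t ht)).1.le
    have hqk : q ≤ k₁ := csSup_le ⟨0, h0⟩ fun t ht => (abs_lt.mp (hlt t ht)).2.le
    have hk := k₁_lt
    set Eh : Real.Angle → ℝ := fun θ => E θ.toReal with hEh
    have hEhJ : ∀ t ∈ J, Eh (t : Real.Angle) = E t := by
      intro t ht
      simp only [hEh]
      rw [toReal_of_abs_lt (hlt t ht)]
    refine ⟨(fun x : ℝ => (x : Real.Angle)) '' Ioo p q, Eh, p, q, ⟨⟨?_, ?_, ?_⟩, ?_⟩, rfl,
      by linarith, h0'.1, h0'.2, by linarith, ?_, ?_⟩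
    · right
      exact ⟨p, q, by linarith [h0'.1, h0'.2], by linarith [Real.pi_pos], rfl⟩
    · rw [← hJ]
      rintro θ ⟨t, ht, rfl⟩
      apply ContinuousAt.continuousWithinAt
      rw [← coe_cont]
      have h1 : ContinuousAt E t := hcont.continuousAt (hopen.mem_nhds ht)
      exact h1.congr (Filter.eventuallyEq_of_mem (hopen.mem_nhds ht) fun r hr => (hEhJ r hr).symm)
    · rw [← hJ]
      rintro θ ⟨t, ht, rfl⟩
      simp only
      rw [hEhJ t ht, spec_iff]
      exact hspec t ht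
    · intro I' E' hcurve hsub heq
      rw [← hJ] at hsub heq ⊢
      have h0I : ((0 : ℝ) : Real.Angle) ∈ (fun x : ℝ => (x : Real.Angle)) '' J := ⟨0, h0, rfl⟩
      have hE'0 : E' 0 = e₀ := by
        have := heq _ h0I
        rw [hEhJ 0 h0, hE0, Real.Angle.coe_zero] at this
        exact this
      have h0I' : (0 : Real.Angle) ∈ I' := by
        have := hsub h0I
        rwa [Real.Angle.coe_zero] at this
      obtain ⟨J', hA', hI'⟩ := lift_curve hcurve h0I' hE'0
      have hlt' := adm_lt hA'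
      have hJJ' : J ⊆ J' := by
        intro t ht
        have h1 : (t : Real.Angle) ∈ I' := hsub ⟨t, ht, rfl⟩
        rw [hI'] at h1
        obtain ⟨t', ht', h2⟩ := h1
        simp only at h2
        have h3 : t' = t := by
          rw [← toReal_of_abs_lt (hlt' t' ht'), ← toReal_of_abs_lt (hlt t ht), h2]
        rw [← h3]; exact ht'
      have := hmax J' _ hA' hJJ' (fun t ht => by
        rw [heq _ ⟨t, ht, rfl⟩, hEhJ t ht])
      rw [hI', this]
    · exact not_crossing (abs_le.mpr ⟨hpk, by linarith [h0'.1, k₁_pos]⟩)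
    · exact not_crossing (abs_le.mpr ⟨by linarith [h0'.2, k₁_pos], hqk⟩)
  refine ⟨main, fun hclaim => ?_⟩
  obtain ⟨I, E, p, q, hcurve, hI, h1, h2, h3, h4, h5, h6⟩ := main
  have := (hclaim e31 I E hcurve).2 p q (by linarith) (by linarith [Real.pi_pos]) hI
  exact h5 this.1.1

end Pool.Agent.Results.MP_1b99aa_mp.BandMerging
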